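import Pool.Agent.W901.RL.Stm

/-!
# Independence of the labels
-/

set_option autoImplicit false

namespace Pool.Agent.W462.RL

open Finset Pool.Agent.NPC Pool.Agent.H579R2.Spt Pool.Agent.H251R5.PQ Pool.Agent.W901.AT
open Pool.Agent.W901.RL

/-! ### Inner products -/

theorem ip_append : ∀ (a c b d : List Bool), a.length = c.length →
    ip (a ++ b) (c ++ d) = xor (ip a c) (ip b d)
  | [], [], b, d, _ => by simp
  | [], y :: c, b, d, h => by simp at h
  | x :: a, [], b, d, h => by simp at h
  | x :: a, y :: c, b, d, h => by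
    rw [List.cons_append, List.cons_append, ip_cons, ip_cons,
      ip_append a c b d (by simpa using h), Bool.xor_assoc]

theorem ip_xor : ∀ (a a' c : List Bool), a.length = a'.length →
    ip (List.zipWith xor a a') c = xor (ip a c) (ip a' c)
  | [], [], c, _ => by simp
  | [], y :: a', c, h => by simp at h
  | x :: a, [], c, h => by simp at h
  | x :: a, y :: a', [], h => by simp
  | x :: a, y :: a', z :: c, h => by
    rw [List.zipWith_cons_cons, ip_cons, ip_cons, ip_cons, ip_xor a a' c (by simpa using h)]
    cases x <;> cases y <;> cases z <;> cases ip a c <;> cases ip a' c <;> rfl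

/-- fold of an indicator -/
theorem ip_flat (p : ℕ) (F G : ℕ → List Bool) (hF : ∀ i, (F i).length = p)
    (hG : ∀ i, (G i).length = p) (α : ℕ) (b : Bool)
    (h0 : ∀ i, i ≠ α → ip (F i) (G i) = false) (h1 : ip (F α) (G α) = b) :
    ∀ l : List ℕ, l.Nodup → ip (l.flatMap F) (l.flatMap G) = (decide (α ∈ l) && b) := by
  intro l
  induction l with
  | nil => intro _; simp
  | cons i l ih =>
    intro hn
    rw [List.nodup_cons] at hn
    rw [List.flatMap_cons, List.flatMap_cons, ip_append _ _ _ _ (by rw [hF, hG]), ih hn.2]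
    by_cases hi : i = α
    · subst hi
      rw [h1]
      simp [hn.1]
    · rw [h0 i hi]
      have : α ≠ i := fun h => hi h.symm
      simp [this]

theorem ip_map (f g : ℕ → Bool) (β : ℕ) (hf : ∀ c, c ≠ β → f c = false) :
    ∀ l : List ℕ, l.Nodup → ip (l.map f) (l.map g) = (decide (β ∈ l) && (f β && g β)) := by
  intro l
  induction l with
  | nil => intro _; simp
  | cons i l ih =>
    intro hn
    rw [List.nodup_cons] at hn
    rw [List.map_cons, List.map_cons, ip_cons, ih hn.2]
    by_cases hi : i = β
    · subst hi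
      simp [hn.1]
    · rw [hf i hi]
      have : β ≠ i := fun h => hi h.symm
      simp [this]

theorem sep : S_SEP := by
  classical
  intro p k j S u hp hS hu hk hkj
  -- a point of no collisions
  have h1 : ∃ α, α < p ∧ ∀ v ∈ S, v ≠ u → hv p α u ≠ hv p α v := by
    by_contra hcon
    push Not at hcon
    have h2 : range p ⊆ (S.erase u).biUnion
        (fun v => (range p).filter (fun α => hv p α u = hv p α v)) := by
      intro α hα
      rw [Finset.mem_range] at hα
      obtain ⟨v, hvS, hvu, hv1⟩ := hcon α hα
      rw [Finset.mem_biUnion]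
      exact ⟨v, Finset.mem_erase.2 ⟨hvu, hvS⟩, by simp [hα, hv1]⟩
    have h3 := Finset.card_le_card h2
    rw [Finset.card_range] at h3
    have h4 : ((S.erase u).biUnion
        (fun v => (range p).filter (fun α => hv p α u = hv p α v))).card ≤ (S.erase u).card * j := by
      refine Finset.card_biUnion_le_card_mul _ _ _ fun v hv1 => ?_
      rw [Finset.mem_erase] at hv1
      have h5 := collisions hp u v (by rw [hS u hu, hS v hv1.2]) (fun h => hv1.1 h.symm)
      rwa [hS u hu] at h5
    have h5 : (S.erase u).card * j ≤ k * j :=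
      Nat.mul_le_mul_right _ ((Finset.card_le_card (Finset.erase_subset _ _)).trans hk)
    omega
  obtain ⟨α, hα, hsep⟩ := h1
  set β : ℕ := hv p α u with hβ
  let F : ℕ → List Bool := fun i => (List.range p).map (fun c => decide (i = α ∧ c = β))
  refine ⟨(List.range p).flatMap F, ?_, ?_⟩
  · rw [List.length_flatMap]
    simp [F]
  · intro v hvS
    unfold lbl lift
    have h2 := ip_flat p F (fun i => (List.range p).map (fun c => decide (hv p i v = c)))
      (fun i => by simp [F]) (fun i => by simp) α (decide (hv p α v = β)) ?_ ?_ (List.range p)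
      List.nodup_range
    · rw [h2]
      have h3 : decide (α ∈ List.range p) = true := by simp [hα]
      rw [h3, Bool.true_and, decide_eq_true_eq]
      constructor
      · intro h
        by_contra hne
        exact hsep v hvS hne h.symm
      · intro h
        rw [h]
    · intro i hi
      simp only [F]
      rw [ip_map _ _ β (fun c hc => by simp [hc]) (List.range p) List.nodup_range]
      simp [hi]
    · simp only [F]
      rw [ip_map _ _ β (fun c hc => by simp [hc]) (List.range p) List.nodup_range]
      have h3 : decide (β ∈ List.range p) = true := by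
        simp only [List.mem_range, decide_eq_true_eq]
        exact hv_lt hp.pos α u
      rw [h3]
      simp

/-! ### Sums over bit strings -/

theorem sum_BL_append (a b : ℕ) (f : List Bool → ℝ) :
    ∑ r ∈ BL (a + b), f r = ∑ s ∈ BL a, ∑ t ∈ BL b, f (s ++ t) := by
  rw [← Finset.sum_product']
  refine Finset.sum_bij' (fun r _ => (r.take a, r.drop a)) (fun q _ => q.1 ++ q.2) ?_ ?_ ?_ ?_ ?_
  · intro r hr
    rw [mem_BL] at hr
    rw [Finset.mem_product, mem_BL, mem_BL, List.length_take, List.length_drop]
    omega
  · intro q hq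
    rw [Finset.mem_product, mem_BL, mem_BL] at hq
    rw [mem_BL, List.length_append]
    omega
  · intro r _
    exact List.take_append_drop a r
  · intro q hq
    rw [Finset.mem_product, mem_BL, mem_BL] at hq
    refine Prod.ext ?_ ?_
    · exact List.take_left' hq.1
    · exact List.drop_left' hq.1
  · intro r _
    rw [List.take_append_drop]

theorem row_append (p m : ℕ) (s σ u : List Bool) (hs : s.length = p * p) :
    row p (m + 1) (s ++ σ) u = lbl p s u :: row p m σ u := by
  unfold row
  rw [List.range_succ_eq_map, List.map_cons, List.map_map]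
  have h0 : blk (p * p) 0 (s ++ σ) = s := by
    unfold blk
    rw [Nat.zero_mul, List.drop_zero]
    exact List.take_left' hs
  rw [h0]
  congr 1
  refine List.map_congr_left fun i _ => ?_
  simp only [Function.comp]
  have h1 : blk (p * p) (Nat.succ i) (s ++ σ) = blk (p * p) i σ := by
    unfold blk
    congr 1
    have e : Nat.succ i * (p * p) = s.length + i * (p * p) := by
      rw [hs, Nat.succ_mul, Nat.add_comm]
    rw [e, ← List.drop_drop, List.drop_left' rfl]
  rw [h1]

theorem sum_BL_one (m : ℕ) (f : List Bool → ℝ) :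
    ∑ r ∈ BL (m + 1), f r = ∑ r ∈ BL m, f (true :: r) + ∑ r ∈ BL m, f (false :: r) := by
  classical
  rw [BL_succ, Finset.sum_union, Finset.sum_image (by simp), Finset.sum_image (by simp)]
  rw [Finset.disjoint_left]
  simp only [Finset.mem_image]
  rintro r ⟨a, _, rfl⟩ ⟨b, _, h⟩
  simp at h

/-- The row of one string is uniform and independent of the others. -/
theorem key (p t : ℕ) (u : Fin t → List Bool) (a : Fin t) (s₀ : List Bool)
    (hs₀ : s₀.length = p * p) (ha : lbl p s₀ (u a) = true)
    (hl : ∀ l, l ≠ a → lbl p s₀ (u l) = false) (m : ℕ) :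
    ∀ ψ : Fin t → List Bool → ℝ,
    2 ^ m * ∑ σ ∈ BL (m * (p * p)), ∏ l, ψ l (row p m σ (u l)) =
      (∑ w ∈ BL m, ψ a w) * ∑ σ ∈ BL (m * (p * p)), ∏ l ∈ univ.erase a, ψ l (row p m σ (u l)) := by
  induction m with
  | zero =>
    intro ψ
    have h0 : ∀ (σ v : List Bool), row p 0 σ v = [] := fun σ v => rfl
    simp only [h0, Nat.zero_mul, BL_zero, Finset.sum_singleton, pow_zero, one_mul]
    rw [Finset.mul_prod_erase univ (fun l => ψ l []) (Finset.mem_univ a)]
  | succ m ih =>
    intro ψ
    have e1 : (m + 1) * (p * p) = p * p + m * (p * p) := by ring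
    rw [e1, sum_BL_append (p * p) (m * (p * p)), sum_BL_append (p * p) (m * (p * p))]
    have e2 : ∀ s ∈ BL (p * p), ∀ σ ∈ BL (m * (p * p)), ∀ l : Fin t,
        ψ l (row p (m + 1) (s ++ σ) (u l)) = ψ l (lbl p s (u l) :: row p m σ (u l)) := by
      intro s hs σ _ l
      rw [row_append p m s σ (u l) (mem_BL.1 hs)]
    have e3 : ∑ s ∈ BL (p * p), ∑ σ ∈ BL (m * (p * p)), ∏ l, ψ l (row p (m + 1) (s ++ σ) (u l)) =
        ∑ s ∈ BL (p * p), ∑ σ ∈ BL (m * (p * p)), ∏ l, ψ l (lbl p s (u l) :: row p m σ (u l)) :=
      Finset.sum_congr rfl fun s hs => Finset.sum_congr rfl fun σ hσ =>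
        Finset.prod_congr rfl fun l _ => e2 s hs σ hσ l
    have e4 : ∑ s ∈ BL (p * p), ∑ σ ∈ BL (m * (p * p)),
        ∏ l ∈ univ.erase a, ψ l (row p (m + 1) (s ++ σ) (u l)) =
        ∑ s ∈ BL (p * p), ∑ σ ∈ BL (m * (p * p)),
          ∏ l ∈ univ.erase a, ψ l (lbl p s (u l) :: row p m σ (u l)) :=
      Finset.sum_congr rfl fun s hs => Finset.sum_congr rfl fun σ hσ =>
        Finset.prod_congr rfl fun l _ => e2 s hs σ hσ l
    rw [e3, e4]
    set G : Bool → ℝ := fun b => ∑ w ∈ BL m, ψ a (b :: w) with hG
    set H : List Bool → ℝ := fun s => ∑ σ ∈ BL (m * (p * p)),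
      ∏ l ∈ univ.erase a, ψ l (lbl p s (u l) :: row p m σ (u l)) with hH
    have e5 : ∀ s, 2 ^ m * ∑ σ ∈ BL (m * (p * p)), ∏ l, ψ l (lbl p s (u l) :: row p m σ (u l)) =
        G (lbl p s (u a)) * H s := fun s => ih (fun l w => ψ l (lbl p s (u l) :: w))
    rw [pow_succ, mul_assoc, mul_comm (2 : ℝ), ← mul_assoc, Finset.mul_sum]
    rw [Finset.sum_congr rfl fun s _ => e5 s, sum_BL_one]
    -- the involution
    let τ : List Bool → List Bool := fun s => List.zipWith xor s s₀
    have hτmem : ∀ s ∈ BL (p * p), τ s ∈ BL (p * p) := by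
      intro s hs
      rw [mem_BL] at hs ⊢
      simp only [τ, List.length_zipWith, hs, hs₀, min_self]
    have hττ : ∀ s ∈ BL (p * p), τ (τ s) = s := by
      intro s hs
      rw [mem_BL] at hs
      have hgen : ∀ (x y : List Bool), x.length = y.length →
          List.zipWith xor (List.zipWith xor x y) y = x := by
        intro x
        induction x with
        | nil => intro y _; simp
        | cons b x ih =>
          intro y hy
          cases y with
          | nil => simp at hy
          | cons c y =>
            rw [List.zipWith_cons_cons, List.zipWith_cons_cons, ih y (by simpa using hy)]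
            simp
      exact hgen s s₀ (by rw [hs, hs₀])
    have hτl : ∀ s ∈ BL (p * p), ∀ v, lbl p (τ s) v = xor (lbl p s v) (lbl p s₀ v) := by
      intro s hs v
      rw [mem_BL] at hs
      exact ip_xor s s₀ _ (by rw [hs, hs₀])
    have hHτ : ∀ s ∈ BL (p * p), H (τ s) = H s := by
      intro s hs
      simp only [hH]
      refine Finset.sum_congr rfl fun σ _ => Finset.prod_congr rfl fun l hl' => ?_
      rw [hτl s hs, hl l (Finset.ne_of_mem_erase hl'), Bool.xor_false]
    have hflip : ∑ s ∈ BL (p * p), G (lbl p s (u a)) * H s =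
        ∑ s ∈ BL (p * p), G (!lbl p s (u a)) * H s := by
      refine Finset.sum_bij' (fun s _ => τ s) (fun s _ => τ s) hτmem hτmem hττ hττ ?_
      intro s hs
      rw [hHτ s hs, hτl s hs, ha, Bool.xor_true, Bool.not_not]
    have hsum : (∑ s ∈ BL (p * p), G (lbl p s (u a)) * H s) * 2 =
        (G true + G false) * ∑ s ∈ BL (p * p), H s := by
      rw [mul_two]
      nth_rewrite 2 [hflip]
      rw [← Finset.sum_add_distrib, Finset.mul_sum]
      refine Finset.sum_congr rfl fun s _ => ?_
      cases lbl p s (u a)
      · simp only [Bool.not_false]; ring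
      · simp only [Bool.not_true]; ring
    exact hsum

theorem tw : S_TW := by
  intro p m j t u a ψ hp htj hu hne h0
  obtain ⟨s₀, hs₀, hs⟩ := sep p t j (univ.image u) (u a) hp
    (fun v hv => by
      rw [Finset.mem_image] at hv
      obtain ⟨l, _, rfl⟩ := hv
      exact hu l)
    (Finset.mem_image_of_mem u (Finset.mem_univ a))
    (by
      refine Finset.card_image_le.trans ?_
      rw [Finset.card_univ, Fintype.card_fin]) htj
  have ha : lbl p s₀ (u a) = true :=
    (hs (u a) (Finset.mem_image_of_mem u (Finset.mem_univ a))).2 rfl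
  have hl : ∀ l, l ≠ a → lbl p s₀ (u l) = false := by
    intro l hla
    have h1 := hs (u l) (Finset.mem_image_of_mem u (Finset.mem_univ l))
    by_contra h2
    exact hne l hla (h1.1 (by simpa using h2))
  have h1 := key p t u a s₀ hs₀ ha hl m ψ
  rw [h0, zero_mul] at h1
  exact (mul_eq_zero.1 h1).resolve_left (by positivity)

end Pool.Agent.W462.RL
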